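import Mathlib
import Pool.Agent.TH785.WC.Defs

/-!
# No universal relation of size continuum: the statement and its forcing translation
-/

set_option autoImplicit false

namespace Pool.Agent.P8H90.UP

open Cardinal Pool.Agent.Helper669.Forcing Pool.Agent.TH785.WC

universe u v

/-- `S` is reflexive, and every `S`-chain has at most two elements. In particular `S` is a partial
order. -/
def HeightTwo {K : Type v} (S : K → K → Prop) : Prop :=
  (∀ x, S x x) ∧ ∀ x y z, S x y → S y z → x = y ∨ y = z

/-- The relation `E` is a function `e`, and `S x y` holds if and only if `R (e x) (e y)` does. -/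
def Embeds {K : Type v} (S R E : K → K → Prop) : Prop :=
  ((∀ x, ∃ a, E x a) ∧ (∀ x a a', E x a → E x a' → a = a')) ∧
    ∀ x y a b, E x a → E y b → ((S x y → R a b) ∧ (R a b → S x y))

/-- The combinatorial statement about a set `K`: it has the size of the continuum, and for every
relation `R` on `K` there is a partial order of height two on `K` that does not embed into `R`. -/
structure NoUniversal (K : Type v) : Prop where
  /-- `K` can be mapped onto the power set of `ℕ` -/
  real_onto : ∃ e : K → Set ℕ, ∀ z : Set ℕ, ∃ k, e k = z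
  /-- `K` can be mapped injectively into the power set of `ℕ` -/
  real_inj : ∃ e : K → Set ℕ, ∀ k k', k ≠ k' → e k ≠ e k'
  /-- no relation on `K` is universal -/
  no_univ : ∀ R : K → K → Prop, ∃ S : K → K → Prop, HeightTwo S ∧ ¬ ∃ E : K → K → Prop, Embeds S R E

section

variable {P : Type u} [Preorder P]

/-- The translation of `HeightTwo`. -/
def fHeightTwo {K : Type v} (S : K → K → Set P) : Set P :=
  fand (fall fun x => meets (S x x))
    (fall fun x => fall fun y => fall fun z => fimp (meets (S x y)) (fimp (meets (S y z))
      (for' (fground (x = y)) (fground (y = z)))))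

/-- The translation of `Embeds`. -/
def fEmbeds {K : Type v} (S R E : K → K → Set P) : Set P :=
  fand (fand (fall fun x => fex fun a => meets (E x a))
      (fall fun x => fall fun a => fall fun a' => fimp (meets (E x a)) (fimp (meets (E x a'))
        (fground (a = a')))))
    (fall fun x => fall fun y => fall fun a => fall fun b =>
      fimp (meets (E x a)) (fimp (meets (E y b))
        (fand (fimp (meets (S x y)) (meets (R a b))) (fimp (meets (R a b)) (meets (S x y))))))

/-- The forcing translation of `NoUniversal K`, clause by clause. -/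
def NoUniversalN (P : Type u) [Preorder P] (K : Type v) : Set P :=
  fand (fex fun e : K → ℕ → Set P => fall fun z : ℕ → Set P => fex fun k => Same (e k) z) <|
  fand (fex fun e : K → ℕ → Set P => fall fun k => fall fun k' => fall fun _ : k ≠ k' =>
    fnot (Same (e k) (e k'))) <|
  fall fun R : K → K → Set P => fex fun S : K → K → Set P =>
    fand (fHeightTwo S) (fnot (fex fun E : K → K → Set P => fEmbeds S R E))

theorem down_fHeightTwo {K : Type v} (S : K → K → Set P) : Down (fHeightTwo S) :=
  down_fand (down_fall fun _ => down_meets _)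
    (down_fall fun _ => down_fall fun _ => down_fall fun _ => down_fimp _ _)

theorem down_fEmbeds {K : Type v} (S R E : K → K → Set P) : Down (fEmbeds S R E) :=
  down_fand (down_fand (down_fall fun _ => down_fex _)
    (down_fall fun _ => down_fall fun _ => down_fall fun _ => down_fimp _ _))
    (down_fall fun _ => down_fall fun _ => down_fall fun _ => down_fall fun _ => down_fimp _ _)

/-- the function is total -/
theorem fEmbeds_total {K : Type v} {S R E : K → K → Set P} {p : P} (h : p ∈ fEmbeds S R E)
    (x : K) : ∃ q ≤ p, ∃ a, q ∈ meets (E x a) := mem_fex.1 (h.1.1 x) p le_rfl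

theorem meets_of_fimp {N : Set P} {φ : Set P} {p : P} (h : p ∈ fimp φ (meets N)) (hφ : Down φ)
    (hp : p ∈ φ) : p ∈ meets N := by
  refine meets_of_dense fun q hq => ?_
  obtain ⟨r, hr, h'⟩ := mem_fimp.1 h q hq (hφ _ hp _ hq)
  exact ⟨r, hr, h'⟩

/-- values of the relations -/
theorem fEmbeds_iff {K : Type v} {S R E : K → K → Set P} {p : P} (h : p ∈ fEmbeds S R E)
    {x y a b : K} (hx : p ∈ meets (E x a)) (hy : p ∈ meets (E y b)) :
    p ∈ meets (S x y) ↔ p ∈ meets (R a b) := by
  have key : ∀ q ≤ p, ∃ r ≤ q, r ∈ fand (fimp (meets (S x y)) (meets (R a b)))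
      (fimp (meets (R a b)) (meets (S x y))) := by
    intro q hq
    obtain ⟨r, hr, h1⟩ := mem_fimp.1 (h.2 x y a b) q hq (down_meets _ _ hx _ hq)
    obtain ⟨s, hs, h2⟩ := mem_fimp.1 h1 r le_rfl (down_meets _ _ hy _ (hr.trans hq))
    exact ⟨s, hs.trans hr, h2⟩
  constructor
  · intro hS
    refine meets_of_dense fun q hq => ?_
    obtain ⟨r, hr, h1, h2⟩ := key q hq
    exact ⟨r, hr, meets_of_fimp h1 (down_meets _) (down_meets _ _ hS _ (hr.trans hq))⟩
  · intro hR
    refine meets_of_dense fun q hq => ?_
    obtain ⟨r, hr, h1, h2⟩ := key q hq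
    exact ⟨r, hr, meets_of_fimp h2 (down_meets _) (down_meets _ _ hR _ (hr.trans hq))⟩

end

end Pool.Agent.P8H90.UP
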