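import Mathlib
import Pool.Agent.TH785.WC.Rest
import Pool.Agent.P8H90.UP.Defs

/-!
# No relation of size continuum is universal in the extension
-/

set_option autoImplicit false

namespace Pool.Agent.P8H90.UP

open Cardinal Set Pool.Agent.Helper669.Forcing Pool.Agent.TH785.WC

/-- The relation `S` on `K`: the points of `K` are divided by `d` into the points `θ` and the
points `k`, and the `k`-th generic subset of `Θ` says which `θ` are below `k`. -/
def SName {I K M Θ : Type} (d : K ≃ Θ ⊕ K) (ι : K → M) (x y : K) : Set (PP I (M × Θ)) :=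
  {r | x = y ∨ ∃ θ k, d x = Sum.inl θ ∧ d y = Sum.inr k ∧ ((ι k, θ), true) ∈ r.2.g}

theorem heightTwo_SName {I K M Θ : Type} (d : K ≃ Θ ⊕ K) (ι : K → M) (p : PP I (M × Θ)) :
    p ∈ fHeightTwo (SName (I := I) d ι) := by
  refine ⟨fun x => meets_of_mem (Or.inl rfl), fun x y z => mem_fimp.2 fun q _ h1 =>
    ⟨q, le_rfl, mem_fimp.2 fun r hr h2 => ⟨r, le_rfl, ?_⟩⟩⟩
  refine mem_for.2 fun s hs => ⟨s, le_rfl, ?_⟩
  obtain ⟨_, _, _, h3, _⟩ := h1 s (hs.trans hr)
  obtain ⟨_, _, _, h4, _⟩ := h2 s hs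
  rcases h3 with h3 | ⟨θ, k, _, hy, _⟩
  · exact Or.inl h3
  · rcases h4 with h4 | ⟨θ', k', hy', _, _⟩
    · exact Or.inr h4
    · rw [hy] at hy'
      exact absurd hy' (by simp)

/-- The value of a countable partial function at one point is changed to `true`. -/
theorem exists_flip {D : Type} (t : CC D) (d : D) :
    ∃ t' : CC D, t'.g = {x | x.1 ≠ d ∧ x ∈ t.g} ∪ {(d, true)} := by
  refine ⟨⟨{x | x.1 ≠ d ∧ x ∈ t.g} ∪ {(d, true)}, (t.cnt.mono fun x hx => hx.2).union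
    (Set.countable_singleton _), ?_⟩, rfl⟩
  rintro e b b' (⟨h1, h1'⟩ | h1) (⟨h2, h2'⟩ | h2)
  · exact t.fn _ _ _ h1' h2'
  · simp only [mem_singleton_iff, Prod.mk.injEq] at h2
    exact absurd h2.1 h1
  · simp only [mem_singleton_iff, Prod.mk.injEq] at h1
    exact absurd h1.1 h2
  · simp only [mem_singleton_iff, Prod.mk.injEq] at h1 h2
    rw [h1.2, h2.2]

/-- No relation on `K` is universal in the extension. -/
theorem no_univ {I K M Θ : Type} (hΘ : #Θ = 𝔠) (hK : 𝔠 < #K) (hM : #K < #M)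
    (p : PP I (M × Θ)) :
    p ∈ fall fun R : K → K → Set (PP I (M × Θ)) => fex fun S : K → K → Set (PP I (M × Θ)) =>
      fand (fHeightTwo S) (fnot (fex fun E : K → K → Set (PP I (M × Θ)) => fEmbeds S R E)) := by
  classical
  intro R
  have hK0 : ℵ₀ ≤ #K := aleph0_le_continuum.trans hK.le
  have hM0 : ℵ₀ ≤ #M := hK0.trans hM.le
  -- the supports of the truth values of `R`
  have h1 : ∀ a b, ∃ Z ⊆ {u | u ∈ meets (R a b) ∨ u ∈ fnot (meets (R a b))}, #Z ≤ 𝔠 ∧
      ∀ d ∈ {u | u ∈ meets (R a b) ∨ u ∈ fnot (meets (R a b))}, ∃ c ∈ Z, ∃ r, r ≤ c ∧ r ≤ d :=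
    fun a b => exists_antichain pp_cc _
  choose Z hZ1 hZ2 hZ3 using h1
  let S0 : Set M := ⋃ x : K × K, ⋃ u ∈ Z x.1 x.2, (fun y : (M × Θ) × Bool => y.1.1) '' u.2.g
  have hS0 : #S0 ≤ #K := by
    refine Pool.Agent.Helper669.KDelta.small_iUnion hK0 ?_ _ fun x => ?_
    · rw [Cardinal.mk_prod, Cardinal.lift_id]
      exact (Cardinal.mul_eq_self hK0).le
    · refine Pool.Agent.Helper669.KDelta.small_biUnion hK0 _ ((hZ2 _ _).trans hK.le) _ fun u _ => ?_
      exact Cardinal.mk_image_le.trans ((Cardinal.le_aleph0_iff_set_countable.2 u.2.cnt).trans hK0)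
  have hmemS0 : ∀ a b, ∀ u ∈ Z a b, ∀ y ∈ u.2.g, y.1.1 ∈ S0 := by
    intro a b u hu y hy
    simp only [S0, mem_iUnion]
    exact ⟨(a, b), u, hu, y, hy, rfl⟩
  -- an injection of `K` into the complement
  obtain ⟨⟨ι, hι⟩⟩ : Nonempty (K ↪ {m : M // m ∉ S0}) := by
    rw [← Cardinal.le_def]
    by_contra hlt
    rw [not_le] at hlt
    have h2 : #M ≤ #S0 + #{m : M // m ∉ S0} := by
      have h3 := Cardinal.mk_sum_compl S0
      exact h3.symm.le
    exact absurd (h2.trans ((add_le_add hS0 hlt.le).trans (Cardinal.add_eq_self hK0).le))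
      (not_le.2 hM)
  obtain ⟨d⟩ : Nonempty (K ≃ Θ ⊕ K) := by
    rw [← Cardinal.eq, Cardinal.mk_sum, Cardinal.lift_id, Cardinal.lift_id, hΘ]
    exact (Cardinal.add_eq_right hK0 hK.le).symm
  refine mem_fex_of_mem (SName (I := I) d fun k => (ι k).1)
    (down_fand (down_fHeightTwo _) (down_fnot _)) ⟨heightTwo_SName d _ p, ?_⟩
  intro q _ hex
  obtain ⟨q0, _, E, hE⟩ := mem_fex.1 hex q le_rfl
  -- the supports of the images of the points `θ`
  have h2 : ∀ θ : Θ, ∃ W ⊆ {u | ∃ a, u ∈ meets (E (d.symm (Sum.inl θ)) a)}, #W ≤ 𝔠 ∧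
      ∀ v ∈ {u | ∃ a, u ∈ meets (E (d.symm (Sum.inl θ)) a)}, ∃ c ∈ W, ∃ r, r ≤ c ∧ r ≤ v :=
    fun θ => exists_antichain pp_cc _
  choose W hW1 hW2 hW3 using h2
  let B : Set M := ⋃ θ : Θ, ⋃ u ∈ W θ, (fun y : (M × Θ) × Bool => y.1.1) '' u.2.g
  have hB : #B ≤ 𝔠 := by
    refine Pool.Agent.Helper669.KDelta.small_iUnion aleph0_le_continuum hΘ.le _ fun x => ?_
    refine Pool.Agent.Helper669.KDelta.small_biUnion aleph0_le_continuum _ (hW2 _) _ fun u _ => ?_
    exact Cardinal.mk_image_le.trans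
      ((Cardinal.le_aleph0_iff_set_countable.2 u.2.cnt).trans aleph0_le_continuum)
  have hmemB : ∀ θ, ∀ u ∈ W θ, ∀ y ∈ u.2.g, y.1.1 ∈ B := by
    intro θ u hu y hy
    simp only [B, mem_iUnion]
    exact ⟨θ, u, hu, y, hy, rfl⟩
  obtain ⟨k, hk⟩ : ∃ k, (ι k).1 ∉ B := by
    by_contra hcon
    push Not at hcon
    have h3 : #K ≤ #B := by
      refine Cardinal.mk_le_of_injective (f := fun k => ⟨(ι k).1, hcon k⟩) ?_
      intro k k' h
      have h' := congrArg Subtype.val h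
      exact hι (Subtype.ext h')
    exact absurd (h3.trans hB) (not_le.2 hK)
  have hkS : (ι k).1 ∉ S0 := (ι k).2
  set y : K := d.symm (Sum.inr k) with hy
  obtain ⟨q1, hq1, b, hb⟩ := fEmbeds_total hE y
  -- a point `θ` which is not yet decided
  obtain ⟨θ, hθ⟩ : ∃ θ : Θ, ∀ c, (((ι k).1, θ), c) ∉ q1.2.g := by
    have hcnt : ((fun y : (M × Θ) × Bool => y.1.2) '' q1.2.g).Countable := q1.2.cnt.image _
    obtain ⟨θ, hθ⟩ : ∃ θ, θ ∉ (fun y : (M × Θ) × Bool => y.1.2) '' q1.2.g := by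
      by_contra hcon
      push Not at hcon
      have h3 : (Set.univ : Set Θ).Countable := hcnt.mono fun θ _ => hcon θ
      have h4 : #Θ ≤ ℵ₀ := by
        rw [Cardinal.mk_le_aleph0_iff]
        exact Set.countable_univ_iff.1 h3
      rw [hΘ] at h4
      exact absurd h4 (not_le.2 aleph0_lt_continuum)
    exact ⟨θ, fun c hc => hθ ⟨_, hc, rfl⟩⟩
  set x : K := d.symm (Sum.inl θ) with hx
  have hdx : d x = Sum.inl θ := d.apply_symm_apply _
  have hdy : d y = Sum.inr k := d.apply_symm_apply _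
  have hxy : x ≠ y := by
    intro h
    rw [h, hdy] at hdx
    exact absurd hdx (by simp)
  obtain ⟨t2, ht2⟩ := q1.2.extend ((ι k).1, θ) false hθ
  have hle2 : ((q1.1, t2) : PP I (M × Θ)) ≤ q1 := ⟨le_rfl, by
    show q1.2.g ⊆ t2.g
    rw [ht2]
    exact subset_insert _ _⟩
  obtain ⟨q3, hq3, a0, ha0⟩ := fEmbeds_total (down_fEmbeds _ _ _ _ hE _ (hle2.trans hq1)) x
  obtain ⟨w, hw, r, hrw, hrq3⟩ := hW3 θ q3 ⟨a0, ha0⟩
  obtain ⟨a, ha⟩ := hW1 θ hw
  have hrq1 : r ≤ q1 := hrq3.trans (hq3.trans hle2)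
  have hrE := down_fEmbeds _ _ _ _ hE _ (hrq1.trans hq1)
  have hrfalse : (((ι k).1, θ), false) ∈ r.2.g := by
    refine (hrq3.trans hq3).2 ?_
    show _ ∈ t2.g
    rw [ht2]
    exact mem_insert _ _
  have hra : r ∈ meets (E x a) := down_meets _ _ ha _ hrw
  have hrb : r ∈ meets (E y b) := down_meets _ _ hb _ hrq1
  -- `r` forces that the images are not related
  have hnot : r ∈ fnot (meets (R a b)) := by
    intro s hs hR
    have hS : s ∈ meets (SName (I := I) d (fun k => (ι k).1) x y) :=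
      (fEmbeds_iff (down_fEmbeds _ _ _ _ hrE _ hs) (down_meets _ _ hra _ hs)
        (down_meets _ _ hrb _ hs)).2 hR
    obtain ⟨v, hv, s', hs', hvs⟩ := hS s le_rfl
    rcases hs' with hs' | ⟨θ', k', h3, h4, h5⟩
    · exact hxy hs'
    · rw [hdx] at h3
      rw [hdy] at h4
      obtain rfl := Sum.inl.inj h3
      obtain rfl := Sum.inr.inj h4
      have h6 := v.2.fn _ _ _ (hvs.2 h5) ((hv.trans hs).2 hrfalse)
      exact absurd h6 (by simp)
  -- the flipped condition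
  obtain ⟨t', ht'⟩ := exists_flip r.2 ((ι k).1, θ)
  have hr'w : ((r.1, t') : PP I (M × Θ)) ≤ w := by
    refine ⟨hrw.1, fun z hz => ?_⟩
    show z ∈ t'.g
    rw [ht']
    refine Or.inl ⟨fun h => hk ?_, hrw.2 hz⟩
    have h3 := hmemB θ w hw z hz
    rw [h] at h3
    exact h3
  have hr'q1 : ((r.1, t') : PP I (M × Θ)) ≤ q1 := by
    refine ⟨hrq1.1, fun z hz => ?_⟩
    show z ∈ t'.g
    rw [ht']
    refine Or.inl ⟨fun h => hθ z.2 ?_, hrq1.2 hz⟩
    rw [← h]
    exact hz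
  have hr'R : ((r.1, t') : PP I (M × Θ)) ∈ meets (R a b) := by
    refine (fEmbeds_iff (down_fEmbeds _ _ _ _ hE _ (hr'q1.trans hq1)) (down_meets _ _ ha _ hr'w)
      (down_meets _ _ hb _ hr'q1)).1 (meets_of_mem (Or.inr ⟨θ, k, hdx, hdy, ?_⟩))
    show _ ∈ t'.g
    rw [ht']
    exact Or.inr rfl
  -- but the truth value of `R a b` does not depend on this coordinate
  let N : Set (PP I (M × Θ)) := {u | u ∈ Z a b ∧ u ∈ fnot (meets (R a b))}
  have hN : On {j : M × Θ | j.1 ∈ S0} N := fun u hu z hz => hmemS0 a b u hu.1 z hz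
  have hrN : r ∈ meets N := by
    intro s hs
    obtain ⟨c, hc, v, hvc, hvs⟩ := hZ3 a b s (Or.inr (down_fnot _ _ hnot _ hs))
    refine ⟨v, hvs, c, ⟨hc, ?_⟩, hvc⟩
    rcases hZ1 a b hc with h3 | h3
    · exact absurd (down_meets _ _ h3 _ hvc) (hnot v (hvs.trans hs))
    · exact h3
  have hr'N : ((r.1, t') : PP I (M × Θ)) ∈ meets N := by
    refine meets_change (s := r.1) (t := r.2) hN hrN fun z hz hzS => ?_
    rw [ht']
    refine Or.inl ⟨fun h => hkS ?_, hz⟩
    have h3 : z.1.1 ∈ S0 := hzS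
    rw [h] at h3
    exact h3
  obtain ⟨v, hv, s, hs, hvs⟩ := hr'N _ le_rfl
  exact hs.2 v hvs (down_meets _ _ hr'R _ hv)

/-- The forcing theorem. -/
theorem noUniversalN {K M : Type} (hK : 𝔠 < #K) (hKp : #K ^ (ℵ₀ : Cardinal.{0}) = #K)
    (hM : #K < #M) (p : PP (K × ℕ) (M × Set ℕ)) :
    p ∈ NoUniversalN (PP (K × ℕ) (M × Set ℕ)) K :=
  ⟨real_onto (aleph0_le_continuum.trans hK.le) hKp.le rfl p, real_inj p,
    no_univ (by rw [Cardinal.mk_set, Cardinal.mk_nat, Cardinal.two_power_aleph0]) hK hM p⟩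

/-! ### The consequence -/

/-- In ZFC the combinatorial statement implies that no partial order of size at most continuum is
universal for the partial orders of size continuum. -/
theorem not_embeds {K : Type} (h : NoUniversal K) (Q : Type) [PartialOrder Q] (hQ : #Q ≤ 𝔠) :
    ∃ (X : Type) (_ : PartialOrder X), #X = 𝔠 ∧
      (∀ x y z : X, x < y → ¬ y < z) ∧ IsEmpty (X ↪o Q) := by
  classical
  have hKc : #K = 𝔠 := by
    have hs : #(Set ℕ) = 𝔠 := by rw [Cardinal.mk_set, Cardinal.mk_nat, Cardinal.two_power_aleph0]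
    apply le_antisymm
    · obtain ⟨e, he⟩ := h.real_inj
      rw [← hs]
      refine Cardinal.mk_le_of_injective (f := e) fun k k' hkk => ?_
      by_contra hne
      exact he k k' hne hkk
    · obtain ⟨e, he⟩ := h.real_onto
      rw [← hs]
      exact Cardinal.mk_le_of_surjective (f := e) he
  obtain ⟨⟨g, hg⟩⟩ : Nonempty (Q ↪ K) := by
    rw [← Cardinal.le_def, hKc]
    exact hQ
  obtain ⟨S, ⟨hrefl, htwo⟩, hS⟩ := h.no_univ fun a b => ∃ x y : Q, g x = a ∧ g y = b ∧ x ≤ y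
  let inst : PartialOrder K :=
    { le := S
      le_refl := hrefl
      le_trans := by
        intro x y z hxy hyz
        rcases htwo x y z hxy hyz with h' | h'
        · rw [h']; exact hyz
        · rw [← h']; exact hxy
      le_antisymm := by
        intro x y hxy hyx
        rcases htwo x y x hxy hyx with h' | h'
        · exact h'
        · exact h'.symm }
  refine ⟨K, inst, hKc, ?_, ⟨fun f => hS ⟨fun x a => a = g (f x), ⟨fun x => ⟨_, rfl⟩, ?_⟩, ?_⟩⟩⟩
  · intro x y z hxy hyz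
    rcases htwo x y z hxy.le hyz.le with h' | h'
    · exact hxy.ne h'
    · exact hyz.ne h'
  · rintro x a a' rfl rfl
    rfl
  · rintro x y a b rfl rfl
    constructor
    · intro hxy
      exact ⟨_, _, rfl, rfl, (f.le_iff_le).2 hxy⟩
    · rintro ⟨u, v, hu, hv, huv⟩
      rw [hg hu, hg hv] at huv
      exact (f.le_iff_le).1 huv

/-- The ultrapower has size at most continuum. -/
theorem mk_germ_le (u : Ultrafilter ℕ) : #(Filter.Germ (u : Filter ℕ) (Set ℕ)) ≤ 𝔠 := by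
  refine (Cardinal.mk_le_of_surjective (f := fun f : ℕ → Set ℕ => (f : Filter.Germ (u : Filter ℕ) (Set ℕ)))
    fun x => ?_).trans ?_
  · induction x using Filter.Germ.inductionOn with
    | h f => exact ⟨f, rfl⟩
  · rw [← Cardinal.power_def, Cardinal.mk_set, Cardinal.mk_nat, Cardinal.two_power_aleph0,
      Cardinal.continuum_power_aleph0]

end Pool.Agent.P8H90.UP
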